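import Pool.Agent.H723R3.DyadicRing
import Pool.Agent.H723R3.EuclidLocal

set_option autoImplicit false
set_option linter.unusedSectionVars false

/-!
# Sums of at least twelve squares are Euclidean over `ℤ[1/2]`
-/

namespace Pool.Agent.H723R3

section Defs

variable {R : Type*} [CommRing R] {n : ℕ}

/-- The form `q` is Euclidean: for every `x` in `K ^ n` outside `R ^ n` there is `y` in `R ^ n` with
`0 < |q (x - y)| < 1`. -/
def IsEuclideanForm (K : Type*) [Field K] [Algebra R K] [IsFractionRing R K]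
    (a : Matrix (Fin n) (Fin n) R) : Prop :=
  ∀ x : Fin n → K, (¬ ∃ z : Fin n → R, ∀ i, algebraMap R K (z i) = x i) →
    ∃ y : Fin n → R,
      0 < fracNorm R K (formVal a (fun i => x i - algebraMap R K (y i))) ∧
      fracNorm R K (formVal a (fun i => x i - algebraMap R K (y i))) < 1

/-- The form is nondegenerate: the matrix `a i j + a j i` of its polar form has nonzero
determinant. -/
def IsNondegenerate (a : Matrix (Fin n) (Fin n) R) : Prop := (a + a.transpose).det ≠ 0

/-- Two forms over `R` are isomorphic: `q' (e x) = q (x)` for a linear isomorphism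
`e : R ^ m → R ^ n` (which forces `m = n` for nonzero `R`). -/
def IsomorphicForms {m n : ℕ} (a : Matrix (Fin m) (Fin m) R) (b : Matrix (Fin n) (Fin n) R) :
    Prop :=
  ∃ e : (Fin m → R) ≃ₗ[R] (Fin n → R), ∀ x : Fin m → R, formVal b (e x) = formVal a x

end Defs

open Squares

theorem sum_split {n' : ℕ} {α : Type*} [AddCommMonoid α] (f : Fin (4 + (4 + (4 + n'))) → α) :
    ∑ i, f i = (∑ i : Fin 4, f (Fin.castAdd _ i)) +
      ((∑ i : Fin 4, f (Fin.natAdd 4 (Fin.castAdd _ i))) +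
      ((∑ i : Fin 4, f (Fin.natAdd 4 (Fin.natAdd 4 (Fin.castAdd _ i)))) +
      ∑ i : Fin n', f (Fin.natAdd 4 (Fin.natAdd 4 (Fin.natAdd 4 i))))) := by
  rw [Fin.sum_univ_add, Fin.sum_univ_add, Fin.sum_univ_add]

theorem sum_four (f : Fin 4 → ℤ) : ∑ i, f i ^ 2 = q4 f := by
  rw [Fin.sum_univ_four, q4]

/-- The integral lemma. -/
theorem integral_lemma {n' m : ℕ} (hm : Odd m) (u : Fin (4 + (4 + (4 + n'))) → ℤ)
    (h : ¬ (m : ℤ) ^ 2 ∣ ∑ i, u i ^ 2) :
    ∃ w : Fin (4 + (4 + (4 + n'))) → ℤ, (∀ i, (m : ℤ) ∣ w i - u i) ∧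
      ∃ J r : ℕ, 0 < r ∧ r < m ^ 2 ∧ ∑ i, w i ^ 2 = 2 ^ J * r := by
  have hm2 : ((m : ℤ) ^ 2) ≠ 0 := by
    have := hm.pos
    positivity
  set S : ℤ := ∑ i, u i ^ 2 with hS
  set r : ℕ := (S % (m : ℤ) ^ 2).toNat with hr
  have hrZ : (r : ℤ) = S % (m : ℤ) ^ 2 := Int.toNat_of_nonneg (Int.emod_nonneg _ hm2)
  have hr0 : 0 < r := by
    rcases Nat.eq_zero_or_pos r with h0 | h0
    · exfalso
      apply h
      rw [h0] at hrZ
      exact Int.dvd_of_emod_eq_zero hrZ.symm
    · exact h0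
  have hrlt : r < m ^ 2 := by
    have h1 : (r : ℤ) < (m : ℤ) ^ 2 := by
      rw [hrZ]
      have h2 := Int.emod_lt_abs S hm2
      rwa [abs_of_nonneg (by positivity)] at h2
    exact_mod_cast h1
  have hdvd : (m : ℤ) ^ 2 ∣ S - r := by
    rw [hrZ]
    exact ⟨S / (m : ℤ) ^ 2, by have := Int.emod_add_mul_ediv S ((m : ℤ) ^ 2); linarith⟩
  set v : Fin 4 → ℤ := fun i => u (Fin.castAdd _ i) with hv
  set w : Fin 4 → ℤ := fun i => u (Fin.natAdd 4 (Fin.castAdd _ i)) with hw
  set a : Fin 4 → ℤ := fun i => u (Fin.natAdd 4 (Fin.natAdd 4 (Fin.castAdd _ i))) with ha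
  set rest : Fin n' → ℤ := fun i => u (Fin.natAdd 4 (Fin.natAdd 4 (Fin.natAdd 4 i))) with hrest
  have hsplit : S = q4 v + (q4 w + (q4 a + ∑ i, rest i ^ 2)) := by
    rw [hS, sum_split, ← sum_four, ← sum_four, ← sum_four]
  have hs0 : 0 ≤ ∑ i, rest i ^ 2 := Finset.sum_nonneg fun i _ => sq_nonneg _
  obtain ⟨v', w', a', h1, h2, h3, J, hJ⟩ := core hm v w a (∑ i, rest i ^ 2) hs0 r hr0 (by
    have : q4 v + q4 w + q4 a + ∑ i, rest i ^ 2 - (r : ℤ) = S - r := by rw [hsplit]; ring
    rw [this]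
    exact hdvd)
  refine ⟨Fin.append v' (Fin.append w' (Fin.append a' rest)), ?_, J, r, hr0, hrlt, ?_⟩
  · intro i
    induction i using Fin.addCases with
    | left i => rw [Fin.append_left]; exact h1 i
    | right i =>
      rw [Fin.append_right]
      induction i using Fin.addCases with
      | left i => rw [Fin.append_left]; exact h2 i
      | right i =>
        rw [Fin.append_right]
        induction i using Fin.addCases with
        | left i => rw [Fin.append_left]; exact h3 i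
        | right i =>
          rw [Fin.append_right]
          simp [hrest]
  · rw [sum_split]
    simp only [Fin.append_left, Fin.append_right]
    rw [sum_four, sum_four, sum_four, ← hJ]
    ring

/-- Removing the exceptional case. -/
theorem integral_lemma' {n' m : ℕ} (hm : Odd m) (u : Fin (4 + (4 + (4 + n'))) → ℤ)
    (h : ¬ ∀ i, (m : ℤ) ∣ u i) :
    ∃ w : Fin (4 + (4 + (4 + n'))) → ℤ, (∀ i, (m : ℤ) ∣ w i - u i) ∧
      ∃ J r : ℕ, 0 < r ∧ r < m ^ 2 ∧ ∑ i, w i ^ 2 = 2 ^ J * r := by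
  by_cases hS : (m : ℤ) ^ 2 ∣ ∑ i, u i ^ 2
  · push Not at h
    obtain ⟨i₀, hi₀⟩ := h
    set u' : Fin (4 + (4 + (4 + n'))) → ℤ := Function.update u i₀ (u i₀ + m) with hu'
    have hsum : ∑ i, u' i ^ 2 = ∑ i, u i ^ 2 + (2 * m * u i₀ + m ^ 2) := by
      rw [← Finset.add_sum_erase _ _ (Finset.mem_univ i₀),
        ← Finset.add_sum_erase _ (fun i => u i ^ 2) (Finset.mem_univ i₀)]
      have h1 : ∑ x ∈ Finset.univ.erase i₀, u' x ^ 2 = ∑ x ∈ Finset.univ.erase i₀, u x ^ 2 := by
        refine Finset.sum_congr rfl fun j hj => ?_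
        rw [hu', Function.update_of_ne (Finset.ne_of_mem_erase hj)]
      rw [h1, hu', Function.update_self]
      ring
    have hne : ¬ (m : ℤ) ^ 2 ∣ ∑ i, u' i ^ 2 := by
      intro hd
      rw [hsum] at hd
      have h1 : (m : ℤ) ^ 2 ∣ 2 * m * u i₀ := by
        have h2 := (Int.dvd_add_right hS).1 hd
        exact (Int.dvd_add_left (dvd_refl _)).1 h2
      have hm0 : (m : ℤ) ≠ 0 := by
        have := hm.pos
        positivity
      have h3 : (m : ℤ) ∣ 2 * u i₀ := by
        obtain ⟨c, hc⟩ := h1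
        refine ⟨c, ?_⟩
        apply mul_left_cancel₀ hm0
        linear_combination hc
      have hcop : IsCoprime (m : ℤ) 2 := by
        rw [Int.isCoprime_iff_gcd_eq_one]
        have := Nat.coprime_two_right.2 hm
        exact_mod_cast this
      exact hi₀ (hcop.dvd_of_dvd_mul_left h3)
    obtain ⟨w, hw, J, r, h1, h2, h3⟩ := integral_lemma hm u' hne
    refine ⟨w, ?_, J, r, h1, h2, h3⟩
    intro i
    have h4 : (m : ℤ) ∣ u' i - u i := by
      by_cases hi : i = i₀
      · subst hi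
        rw [hu', Function.update_self]
        exact ⟨1, by ring⟩
      · rw [hu', Function.update_of_ne hi]
        simp
    have h5 : w i - u i = (w i - u' i) + (u' i - u i) := by ring
    rw [h5]
    exact dvd_add (hw i) h4
  · exact integral_lemma hm u hS

/-- The sum of `n` squares. -/
def sumSq (n : ℕ) (R : Type*) [CommRing R] : Matrix (Fin n) (Fin n) R := 1

theorem formVal_sumSq {n : ℕ} {R : Type*} [CommRing R] {A : Type*} [CommRing A] [Algebra R A]
    (x : Fin n → A) : formVal (sumSq n R) x = ∑ i, x i ^ 2 := by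
  rw [formVal]
  refine Finset.sum_congr rfl fun i _ => ?_
  rw [Finset.sum_eq_single i]
  · rw [sumSq, Matrix.one_apply_eq, map_one]
    ring
  · intro j _ hj
    rw [sumSq, Matrix.one_apply_ne (Ne.symm hj), map_zero]
    ring
  · simp

theorem sumSq_anisotropic (n : ℕ) : IsAnisotropic ℚ (sumSq n dyadicRing) := by
  intro x hx h0
  rw [formVal_sumSq] at h0
  apply hx
  ext i
  have := (Finset.sum_eq_zero_iff_of_nonneg (fun i _ => sq_nonneg (x i))).1 h0 i (Finset.mem_univ i)
  simpa using this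

theorem sumSq_nondegenerate (n : ℕ) : IsNondegenerate (sumSq n dyadicRing) := by
  rw [IsNondegenerate, sumSq, Matrix.transpose_one]
  have h : (1 : Matrix (Fin n) (Fin n) dyadicRing) + 1 = (2 : dyadicRing) • 1 := by
    rw [two_smul]
  rw [h, Matrix.det_smul, Matrix.det_one, mul_one]
  exact pow_ne_zero _ isUnit_two.ne_zero

/-- **The sum of `n ≥ 12` squares is a Euclidean form over `ℤ[1/2]`.** -/
theorem sumSq_euclidean (n' : ℕ) : IsEuclideanForm ℚ (sumSq (4 + (4 + (4 + n'))) dyadicRing) := by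
  intro x hx
  -- a common denominator
  set d : ℕ := ∏ i, (x i).den with hd
  have hd0 : d ≠ 0 := Finset.prod_ne_zero_iff.2 fun i _ => (x i).den_nz
  have hu : ∀ i, ∃ z : ℤ, x i * d = z := by
    intro i
    refine ⟨(x i).num * ((∏ j ∈ Finset.univ.erase i, (x j).den : ℕ) : ℤ), ?_⟩
    rw [hd, ← Finset.mul_prod_erase _ _ (Finset.mem_univ i)]
    push_cast
    rw [← mul_assoc, Rat.mul_den_eq_num]
  choose u hu using hu
  obtain ⟨k, m, hm, hdm⟩ := Nat.exists_eq_two_pow_mul_odd hd0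
  have hdQ : (d : ℚ) = 2 ^ k * m := by rw [hdm]; push_cast; rfl
  have hm0 : (m : ℚ) ≠ 0 := by exact_mod_cast hm.pos.ne'
  have h2k : (2 : ℚ) ^ k ≠ 0 := by positivity
  have hxu : ∀ i, x i = u i / (2 ^ k * m) := by
    intro i
    rw [eq_div_iff (mul_ne_zero h2k hm0), ← hdQ]
    exact hu i
  have hnot : ¬ ∀ i, (m : ℤ) ∣ u i := by
    intro h
    choose c hc using h
    apply hx
    refine ⟨fun i => ⟨(c i : ℚ) / 2 ^ k, (mem_dyadicRing_iff _).2 ⟨k, c i, by field_simp⟩⟩, ?_⟩
    intro i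
    change (c i : ℚ) / 2 ^ k = x i
    rw [hxu i, hc i]
    push_cast
    field_simp
  obtain ⟨w, hw, J, r, hr0, hrm, hsum⟩ := integral_lemma' hm u hnot
  choose t ht using hw
  refine ⟨fun i => ⟨(-t i : ℚ) / 2 ^ k, (mem_dyadicRing_iff _).2 ⟨k, -t i, by
    push_cast; field_simp⟩⟩, ?_⟩
  have hval : formVal (sumSq (4 + (4 + (4 + n'))) dyadicRing)
      (fun i => x i - algebraMap dyadicRing ℚ ⟨(-t i : ℚ) / 2 ^ k, (mem_dyadicRing_iff _).2
        ⟨k, -t i, by push_cast; field_simp⟩⟩) = (2 ^ J * r : ℚ) / (2 ^ k * m) ^ 2 := by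
    rw [formVal_sumSq]
    have h1 : ∀ i, (x i - algebraMap dyadicRing ℚ ⟨(-t i : ℚ) / 2 ^ k, (mem_dyadicRing_iff _).2
        ⟨k, -t i, by push_cast; field_simp⟩⟩) = (w i : ℚ) / (2 ^ k * m) := by
      intro i
      change x i - (-t i : ℚ) / 2 ^ k = _
      have h2 : (w i : ℚ) = u i + m * t i := by
        have := ht i
        have h3 : w i = u i + m * t i := by linarith
        rw [h3]; push_cast; ring
      rw [hxu i, h2]
      field_simp
      ring
    simp_rw [h1, div_pow, ← Finset.sum_div]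
    congr 1
    exact_mod_cast hsum
  rw [hval]
  exact fracNorm_lt_one hm hr0 hrm

theorem not_isomorphic {m n : ℕ} (h : m ≠ n) (a : Matrix (Fin m) (Fin m) dyadicRing)
    (b : Matrix (Fin n) (Fin n) dyadicRing) : ¬ IsomorphicForms a b := by
  rintro ⟨e, -⟩
  have := LinearEquiv.finrank_eq e
  rw [Module.finrank_fin_fun, Module.finrank_fin_fun] at this
  exact h this

end Pool.Agent.H723R3
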