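import Pool.Agent.H723R3.SquaresCore
import Pool.Agent.H723R3.EuclidDescent

set_option autoImplicit false
set_option linter.unusedSectionVars false

/-!
# The Hasse domain `ℤ[1/2]` and its canonical norm
-/

namespace Pool.Agent.H723R3

/-- The Hasse domain of `ℚ` for the set of places `{∞, 2}`: the ring of rational numbers `x` with
`|x|_p ≤ 1` for all primes `p ≠ 2`, that is `ℤ[1/2]`. -/
def dyadicRing : Subring ℚ where
  carrier := {x | ∀ p : ℕ, p.Prime → p ≠ 2 → padicNorm p x ≤ 1}
  mul_mem' := by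
    intro a b ha hb p hp hp2
    have := Fact.mk hp
    rw [padicNorm.mul]
    exact mul_le_one₀ (ha p hp hp2) (padicNorm.nonneg _) (hb p hp hp2)
  one_mem' := by
    intro p hp _
    have := Fact.mk hp
    simp
  add_mem' := by
    intro a b ha hb p hp hp2
    have := Fact.mk hp
    exact padicNorm.nonarchimedean.trans (max_le (ha p hp hp2) (hb p hp hp2))
  zero_mem' := by
    intro p hp _
    have := Fact.mk hp
    simp
  neg_mem' := by
    intro a ha p hp hp2
    have := Fact.mk hp
    rw [padicNorm.neg]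
    exact ha p hp hp2

theorem mem_dyadicRing_iff (x : ℚ) : x ∈ dyadicRing ↔ ∃ (k : ℕ) (z : ℤ), x * 2 ^ k = z := by
  constructor
  · intro hx
    have hden : x.den = 2 ^ x.den.primeFactorsList.length := by
      apply Nat.eq_prime_pow_of_unique_prime_dvd x.den_nz
      intro p hp hpd
      by_contra hp2
      have := Fact.mk hp
      have h1 : padicNorm p x ≤ 1 := hx p hp hp2
      have hnum : padicNorm p (x.num : ℚ) = 1 := by
        rw [padicNorm.int_eq_one_iff]
        intro h
        have h2 : p ∣ x.num.natAbs := Int.natCast_dvd.1 h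
        have h3 := Nat.dvd_gcd h2 hpd
        rw [x.reduced] at h3
        exact hp.one_lt.ne' (Nat.dvd_one.1 h3)
      have hd : padicNorm p (x.den : ℚ) < 1 := by
        have := (padicNorm.int_lt_one_iff (p := p) (x.den : ℤ)).2 (by exact_mod_cast hpd)
        exact_mod_cast this
      have hx' : x * x.den = x.num := Rat.mul_den_eq_num x
      have h4 : padicNorm p x * padicNorm p (x.den : ℚ) = 1 := by
        rw [← padicNorm.mul, hx', hnum]
      have h5 : 0 ≤ padicNorm p (x.den : ℚ) := padicNorm.nonneg _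
      nlinarith [padicNorm.nonneg (p := p) x]
    refine ⟨x.den.primeFactorsList.length, x.num, ?_⟩
    have h1 : ((2 : ℚ) ^ x.den.primeFactorsList.length) = (x.den : ℚ) := by
      conv_rhs => rw [hden]
      push_cast
      rfl
    rw [h1]
    exact Rat.mul_den_eq_num x
  · rintro ⟨k, z, hz⟩ p hp hp2
    have := Fact.mk hp
    have h2 : padicNorm p (2 : ℚ) = 1 := by
      have : padicNorm p ((2 : ℤ) : ℚ) = 1 := by
        rw [padicNorm.int_eq_one_iff]
        intro h
        have h3 : p ∣ 2 := by exact_mod_cast h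
        exact hp2 ((Nat.prime_dvd_prime_iff_eq hp Nat.prime_two).1 h3)
      exact_mod_cast this
    have h3 : padicNorm p (x * 2 ^ k) = padicNorm p x := by
      rw [padicNorm.mul]
      have : padicNorm p ((2 : ℚ) ^ k) = 1 := by
        induction k with
        | zero => simp
        | succ k ih =>
          rw [pow_succ, padicNorm.mul, h2, mul_one]
          have : padicNorm p ((2 : ℚ) ^ k) = 1 := by
            clear ih hz
            induction k with
            | zero => simp
            | succ k ih => rw [pow_succ, padicNorm.mul, h2, mul_one, ih]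
          exact this
      rw [this, mul_one]
    rw [← h3, hz]
    exact padicNorm.of_int z

instance : IsFractionRing dyadicRing ℚ := by
  apply IsFractionRing.of_field
  intro z
  have hi : ∀ k : ℤ, (k : ℚ) ∈ dyadicRing := fun k => (mem_dyadicRing_iff _).2 ⟨0, k, by simp⟩
  refine ⟨⟨z.num, hi _⟩, ⟨(z.den : ℤ), hi _⟩, ?_⟩
  change z = (z.num : ℚ) / ((z.den : ℤ) : ℚ)
  rw [Int.cast_natCast]
  exact (Rat.num_div_den z).symm

/-- `2` is invertible in `ℤ[1/2]`. -/
theorem isUnit_two : IsUnit (2 : dyadicRing) := by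
  have h : (1 / 2 : ℚ) ∈ dyadicRing := (mem_dyadicRing_iff _).2 ⟨1, 1, by norm_num⟩
  refine IsUnit.of_mul_eq_one ⟨1 / 2, h⟩ ?_
  apply Subtype.ext
  change (2 : ℚ) * (1 / 2) = 1
  norm_num

theorem exists_int_sub_mem {m : ℕ} (hm : Odd m) (x : dyadicRing) :
    ∃ c : ℤ, x - (c : dyadicRing) ∈ Ideal.span {(m : dyadicRing)} := by
  obtain ⟨k, z, hz⟩ := (mem_dyadicRing_iff _).1 x.2
  have hcop : IsCoprime ((2 : ℤ) ^ k) (m : ℤ) := by
    apply IsCoprime.pow_left
    rw [Int.isCoprime_iff_gcd_eq_one]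
    have := Nat.coprime_two_left.2 hm
    exact_mod_cast this
  obtain ⟨u, v, huv⟩ := hcop
  refine ⟨z * u, ?_⟩
  rw [Ideal.mem_span_singleton]
  have hy : ((z * v : ℤ) : ℚ) / 2 ^ k ∈ dyadicRing :=
    (mem_dyadicRing_iff _).2 ⟨k, z * v, by field_simp⟩
  refine ⟨⟨_, hy⟩, ?_⟩
  apply Subtype.ext
  change (x : ℚ) - ((z * u : ℤ) : ℚ) = (m : ℚ) * (((z * v : ℤ) : ℚ) / 2 ^ k)
  have huv' : (u : ℚ) * 2 ^ k + v * m = 1 := by exact_mod_cast huv
  have hx : (x : ℚ) = z / 2 ^ k := by
    rw [eq_div_iff (by positivity)]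
    exact hz
  rw [hx]
  push_cast
  field_simp
  linear_combination (-(z : ℚ)) * huv'

theorem int_mem_span_iff {m : ℕ} (hm : Odd m) (c : ℤ) :
    (c : dyadicRing) ∈ Ideal.span {(m : dyadicRing)} ↔ (m : ℤ) ∣ c := by
  rw [Ideal.mem_span_singleton]
  constructor
  · rintro ⟨y, hy⟩
    obtain ⟨k, z, hz⟩ := (mem_dyadicRing_iff _).1 y.2
    have h1 : (c : ℚ) = m * (y : ℚ) := by
      have := congrArg (Subtype.val) hy
      exact_mod_cast this
    have h2 : (c : ℚ) * 2 ^ k = m * z := by
      rw [h1, ← hz]; ring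
    have h3 : c * 2 ^ k = m * z := by exact_mod_cast h2
    have hcop : IsCoprime (m : ℤ) ((2 : ℤ) ^ k) := by
      apply IsCoprime.symm
      apply IsCoprime.pow_left
      rw [Int.isCoprime_iff_gcd_eq_one]
      have := Nat.coprime_two_left.2 hm
      exact_mod_cast this
    exact hcop.dvd_of_dvd_mul_right ⟨z, h3⟩
  · rintro ⟨d, rfl⟩
    exact ⟨(d : dyadicRing), by push_cast; ring⟩

theorem card_quotient_odd {m : ℕ} (hm : Odd m) :
    Nat.card (dyadicRing ⧸ Ideal.span {(m : dyadicRing)}) = m := by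
  let f : ℤ →+* dyadicRing ⧸ Ideal.span {(m : dyadicRing)} := Int.castRingHom _
  have hf : Function.Surjective f := by
    intro y
    obtain ⟨x, rfl⟩ := Ideal.Quotient.mk_surjective y
    obtain ⟨c, hc⟩ := exists_int_sub_mem hm x
    refine ⟨c, ?_⟩
    have h1 : Ideal.Quotient.mk (Ideal.span {(m : dyadicRing)}) x =
        Ideal.Quotient.mk _ (c : dyadicRing) := (Ideal.Quotient.eq).2 hc
    rw [h1]
    simp [f]
  have hker : RingHom.ker f = Ideal.span {(m : ℤ)} := by
    ext c
    rw [RingHom.mem_ker, Ideal.mem_span_singleton, ← int_mem_span_iff hm c,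
      ← Ideal.Quotient.eq_zero_iff_mem]
    simp [f]
  have e1 := RingHom.quotientKerEquivOfSurjective hf
  rw [← Nat.card_congr e1.toEquiv, hker,
    Nat.card_congr (Int.quotientSpanNatEquivZMod m).toEquiv, Nat.card_zmod]

theorem exists_odd_mem {I : Ideal dyadicRing} (hI : I ≠ ⊥) : ∃ m : ℕ, Odd m ∧
    (m : dyadicRing) ∈ I := by
  obtain ⟨x, hx, hx0⟩ := Submodule.exists_mem_ne_zero_of_ne_bot hI
  obtain ⟨k, z, hz⟩ := (mem_dyadicRing_iff _).1 x.2
  have hz0 : z ≠ 0 := by
    rintro rfl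
    have : (x : ℚ) = 0 := by
      have h2 : (2 : ℚ) ^ k ≠ 0 := by positivity
      simpa [h2] using hz
    exact hx0 (Subtype.ext this)
  have hzI : (z : dyadicRing) ∈ I := by
    have : (z : dyadicRing) = x * 2 ^ k := by
      apply Subtype.ext
      change (z : ℚ) = (x : ℚ) * 2 ^ k
      rw [hz]
    rw [this]
    exact I.mul_mem_right _ hx
  obtain ⟨a, m, hm, hzm⟩ := Nat.exists_eq_two_pow_mul_odd (n := z.natAbs) (by simpa using hz0)
  refine ⟨m, hm, ?_⟩
  have h1 : ((z.natAbs : ℕ) : dyadicRing) ∈ I := by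
    rcases Int.natAbs_eq z with h | h
    · have h2 : (z : dyadicRing) = ((z.natAbs : ℕ) : dyadicRing) := by
        have := congrArg (Int.cast : ℤ → dyadicRing) h
        rwa [Int.cast_natCast] at this
      rwa [h2] at hzI
    · have h2 : (z : dyadicRing) = -((z.natAbs : ℕ) : dyadicRing) := by
        have := congrArg (Int.cast : ℤ → dyadicRing) h
        rwa [Int.cast_neg, Int.cast_natCast] at this
      rw [h2] at hzI
      exact neg_mem_iff.1 hzI
  rw [hzm] at h1
  push_cast at h1
  exact (Ideal.unit_mul_mem_iff_mem I (isUnit_two.pow a)).1 h1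

instance : Ring.HasFiniteQuotients dyadicRing where
  finiteQuotient := by
    intro I hI
    obtain ⟨m, hm, hmI⟩ := exists_odd_mem hI
    have hfin : Finite (dyadicRing ⧸ Ideal.span {(m : dyadicRing)}) := by
      apply Nat.finite_of_card_ne_zero
      rw [card_quotient_odd hm]
      exact hm.pos.ne'
    have hle : Ideal.span {(m : dyadicRing)} ≤ I := by
      rw [Ideal.span_le]
      simpa using hmI
    exact Finite.of_surjective _ (Ideal.Quotient.factor_surjective hle)

theorem ringNorm_odd {m : ℕ} (hm : Odd m) : ringNorm dyadicRing (m : dyadicRing) = m := by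
  have h0 : (m : dyadicRing) ≠ 0 := by
    intro h
    have := congrArg (Subtype.val) h
    have h1 : (m : ℚ) = 0 := by exact_mod_cast this
    exact hm.pos.ne' (by exact_mod_cast h1)
  rw [ringNorm_eq h0, idx_eq_card, card_quotient_odd hm]

theorem ringNorm_two_pow (k : ℕ) : ringNorm dyadicRing ((2 : dyadicRing) ^ k) = 1 := by
  have hu : IsUnit ((2 : dyadicRing) ^ k) := isUnit_two.pow k
  rw [ringNorm_eq hu.ne_zero, Ideal.span_singleton_eq_top.2 hu, idx_eq_card]
  have : Subsingleton (dyadicRing ⧸ (⊤ : Ideal dyadicRing)) := Ideal.Quotient.subsingleton_iff.2 rfl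
  exact Nat.card_unique

theorem ringNorm_nat_le {r : ℕ} (hr : 0 < r) : ringNorm dyadicRing (r : dyadicRing) ≤ r := by
  obtain ⟨a, m, hm, hrm⟩ := Nat.exists_eq_two_pow_mul_odd (n := r) hr.ne'
  have h1 : (r : dyadicRing) = 2 ^ a * (m : dyadicRing) := by
    conv_lhs => rw [hrm]
    push_cast
    rfl
  rw [h1, ringNorm_mul, ringNorm_two_pow, one_mul, ringNorm_odd hm]
  rw [hrm]
  exact Nat.le_mul_of_pos_left _ (by positivity)

theorem fracNorm_lt_one {m r J k : ℕ} (hm : Odd m) (hr : 0 < r) (hrm : r < m ^ 2) :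
    0 < fracNorm dyadicRing ℚ ((2 ^ J * r : ℚ) / (2 ^ k * m) ^ 2) ∧
    fracNorm dyadicRing ℚ ((2 ^ J * r : ℚ) / (2 ^ k * m) ^ 2) < 1 := by
  have hm0 : (m : dyadicRing) ≠ 0 := by
    intro h
    have := congrArg (Subtype.val) h
    have h1 : (m : ℚ) = 0 := by exact_mod_cast this
    exact hm.pos.ne' (by exact_mod_cast h1)
  have hr0 : (r : dyadicRing) ≠ 0 := by
    intro h
    have := congrArg (Subtype.val) h
    have h1 : (r : ℚ) = 0 := by exact_mod_cast this
    exact hr.ne' (by exact_mod_cast h1)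
  have h20 : (2 : dyadicRing) ≠ 0 := isUnit_two.ne_zero
  have hden : ((2 : dyadicRing) ^ k * m) ^ 2 ≠ 0 := pow_ne_zero _ (mul_ne_zero (pow_ne_zero _ h20) hm0)
  have hnum : (2 : dyadicRing) ^ J * r ≠ 0 := mul_ne_zero (pow_ne_zero _ h20) hr0
  have e : ((2 ^ J * r : ℚ) / (2 ^ k * m) ^ 2) =
      algebraMap dyadicRing ℚ ((2 : dyadicRing) ^ J * r) /
        algebraMap dyadicRing ℚ (((2 : dyadicRing) ^ k * m) ^ 2) := rfl
  rw [e, fracNorm_div _ _ hden]
  have n1 : ringNorm dyadicRing ((2 : dyadicRing) ^ J * r) ≤ r := by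
    rw [ringNorm_mul, ringNorm_two_pow, one_mul]
    exact ringNorm_nat_le hr
  have n2 : ringNorm dyadicRing (((2 : dyadicRing) ^ k * m) ^ 2) = m ^ 2 := by
    rw [sq, ringNorm_mul, ringNorm_mul, ringNorm_two_pow, one_mul, ringNorm_odd hm, sq]
  have n3 : 0 < ringNorm dyadicRing ((2 : dyadicRing) ^ J * r) := ringNorm_pos hnum
  have n4 : 0 < m ^ 2 := by have := hm.pos; positivity
  rw [n2]
  constructor
  · have h1 : (0 : ℚ) < ringNorm dyadicRing ((2 : dyadicRing) ^ J * r) := by exact_mod_cast n3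
    have h2 : (0 : ℚ) < ((m ^ 2 : ℕ) : ℚ) := by exact_mod_cast n4
    positivity
  · have h2 : (0 : ℚ) < ((m ^ 2 : ℕ) : ℚ) := by exact_mod_cast n4
    rw [div_lt_one h2]
    exact_mod_cast lt_of_le_of_lt n1 hrm

end Pool.Agent.H723R3
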