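import Mathlib

set_option autoImplicit false

/-!
# Definitions: Euclidean quadratic forms, genus and class number

`R` is a Dedekind domain with fraction field `K`; a quadratic form in `n` variables over `R` is
given by its coefficients `a i j` in `R`.
-/

namespace Pool.Agent.H723R3

open IsDedekindDomain
open scoped nonZeroDivisors

section Norm

variable (R : Type*) [CommRing R]

/-- The canonical norm on `R`: `|x| = #(R / xR)` for `x ≠ 0`, and `|0| = 0`. -/
noncomputable def ringNorm (x : R) : ℕ :=
  open Classical in if x = 0 then 0 else Nat.card (R ⧸ Ideal.span {x})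

/-- The extension of the canonical norm to the fraction field: `|a / b| = |a| / |b|`. -/
noncomputable def fracNorm (K : Type*) [Field K] [Algebra R K] [IsFractionRing R K] (x : K) : ℚ :=
  (ringNorm R (IsLocalization.sec R⁰ x).1 : ℚ) / (ringNorm R ((IsLocalization.sec R⁰ x).2 : R) : ℚ)

end Norm

section Form

variable {R : Type*} [CommRing R] {n : ℕ}

/-- The value `∑ a i j * x i * x j` of the quadratic form with coefficients `a i j` in `R` at a
vector `x` with entries in an `R`-algebra `A`. -/
def formVal (a : Matrix (Fin n) (Fin n) R) {A : Type*} [CommRing A] [Algebra R A]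
    (x : Fin n → A) : A :=
  ∑ i, ∑ j, algebraMap R A (a i j) * x i * x j

/-- The form is anisotropic over `K`: it has no nontrivial zero in `K ^ n`. -/
def IsAnisotropic (K : Type*) [Field K] [Algebra R K] (a : Matrix (Fin n) (Fin n) R) : Prop :=
  ∀ x : Fin n → K, x ≠ 0 → formVal a x ≠ 0

/-- The form `q` is Euclidean: for every `x` in `K ^ n` there is `y` in `R ^ n` with
`|q (x - y)| < 1`. -/
def IsEuclidean (K : Type*) [Field K] [Algebra R K] [IsFractionRing R K]
    (a : Matrix (Fin n) (Fin n) R) : Prop :=
  ∀ x : Fin n → K, ∃ y : Fin n → R,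
    fracNorm R K (formVal a (fun i => x i - algebraMap R K (y i))) < 1

end Form

section Defs

variable {R : Type*} [CommRing R] {n : ℕ}

/-- Two lattices `M`, `N` in `A ^ n` over a ring `A₀` are isometric with respect to the quadratic
form with coefficients `a i j` if there is an `A₀`-linear isomorphism preserving the values. -/
def Isometric (a : Matrix (Fin n) (Fin n) R) {A₀ A : Type*} [CommRing A₀] [CommRing A]
    [Algebra A₀ A] [Algebra R A] (M N : Submodule A₀ (Fin n → A)) : Prop :=
  ∃ e : M ≃ₗ[A₀] N, ∀ x : M, formVal a (e x : Fin n → A) = formVal a (x : Fin n → A)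

variable (R n) in
/-- The standard lattice `R ^ n` in `K ^ n`. -/
def stdLattice (K : Type*) [Field K] [Algebra R K] : Submodule R (Fin n → K) where
  carrier := {x | ∀ i, ∃ r : R, algebraMap R K r = x i}
  add_mem' := by
    intro x y hx hy i
    obtain ⟨r, hr⟩ := hx i
    obtain ⟨s, hs⟩ := hy i
    exact ⟨r + s, by rw [map_add, hr, hs, Pi.add_apply]⟩
  zero_mem' := fun i => ⟨0, by simp⟩
  smul_mem' := by
    intro c x hx i
    obtain ⟨r, hr⟩ := hx i
    exact ⟨c * r, by rw [map_mul, hr, Pi.smul_apply, Algebra.smul_def]⟩

variable [IsDedekindDomain R] {K : Type*} [Field K] [Algebra R K] [IsFractionRing R K]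

/-- The completion at `v` of a lattice `M` in `K ^ n`: the submodule of `K_v ^ n` generated by `M`
over the completion `R_v` of `R`. -/
noncomputable def localLattice (v : HeightOneSpectrum R) (M : Submodule R (Fin n → K)) :
    Submodule (v.adicCompletionIntegers K) (Fin n → v.adicCompletion K) :=
  Submodule.span (v.adicCompletionIntegers K)
    ((fun (x : Fin n → K) (i : Fin n) => algebraMap K (v.adicCompletion K) (x i)) '' (M : Set (Fin n → K)))

/-- `M` is an `R`-lattice in `K ^ n` which lies in the genus of the lattice `R ^ n` for the
quadratic form with coefficients `a i j`. -/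
structure InGenus (a : Matrix (Fin n) (Fin n) R) (M : Submodule R (Fin n → K)) : Prop where
  /-- `M` is finitely generated. -/
  fg : M.FG
  /-- `M` spans `K ^ n`. -/
  span_eq_top : Submodule.span K (M : Set (Fin n → K)) = ⊤
  /-- `M` is isometric to `R ^ n` over the completion of `R` at every maximal ideal. -/
  locally_isometric : ∀ v : HeightOneSpectrum R,
    Isometric a (localLattice v M) (localLattice v (stdLattice R n K))

end Defs

section ClassNumber

variable {R : Type*} [CommRing R] [IsDedekindDomain R] {n : ℕ}

/-- The form has class number one: every lattice in the genus of `R ^ n` is isometric to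
`R ^ n`. -/
def HasClassNumberOne (K : Type*) [Field K] [Algebra R K] [IsFractionRing R K]
    (a : Matrix (Fin n) (Fin n) R) : Prop :=
  ∀ M : Submodule R (Fin n → K), InGenus a M → Isometric a M (stdLattice R n K)

end ClassNumber

end Pool.Agent.H723R3
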