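import Pool.Agent.H723R3.EuclidLocal

set_option autoImplicit false
set_option linter.unusedSectionVars false

/-!
# Lattices and their completions
-/

namespace Pool.Agent.H723R3

open IsDedekindDomain

variable {R : Type*} [CommRing R] [IsDedekindDomain R]
  {K : Type*} [Field K] [Algebra R K] [IsFractionRing R K] {n : ℕ}

theorem Rv_smul_apply (v : HeightOneSpectrum R) (c : v.adicCompletionIntegers K)
    (y : Fin n → v.adicCompletion K) (i : Fin n) :
    (c • y) i = (c : v.adicCompletion K) * y i := rfl

theorem mem_local_std (v : HeightOneSpectrum R) (x : Fin n → v.adicCompletion K) :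
    x ∈ localLattice v (stdLattice R n K) ↔ ∀ i, x i ∈ v.adicCompletionIntegers K := by
  constructor
  · intro hx
    rw [localLattice] at hx
    induction hx using Submodule.span_induction with
    | mem x hx =>
      obtain ⟨m, hm, rfl⟩ := hx
      intro i
      obtain ⟨r, hr⟩ := hm i
      change algebraMap K (v.adicCompletion K) (m i) ∈ _
      rw [← hr, ← IsScalarTower.algebraMap_apply]
      exact algebraMap_R_mem v r
    | zero =>
      intro i
      exact zero_mem _
    | add x y _ _ hx hy =>
      intro i
      exact add_mem (hx i) (hy i)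
    | smul c x _ hx =>
      intro i
      rw [Rv_smul_apply]
      exact mul_mem c.2 (hx i)
  · intro hx
    have hsum : x = ∑ i, (⟨x i, hx i⟩ : v.adicCompletionIntegers K) •
        (fun j => algebraMap K (v.adicCompletion K) ((Pi.single i (1 : K) : Fin n → K) j)) := by
      ext j
      rw [Finset.sum_apply, Finset.sum_eq_single j]
      · rw [Rv_smul_apply]
        simp
      · intro b _ hb
        rw [Rv_smul_apply, Pi.single_eq_of_ne (Ne.symm hb)]
        simp
      · simp
    rw [hsum]
    refine Submodule.sum_mem _ fun i _ => Submodule.smul_mem _ _ (Submodule.subset_span ?_)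
    refine ⟨Pi.single i 1, ?_, rfl⟩
    intro j
    by_cases h : j = i
    · subst h
      exact ⟨1, by simp⟩
    · exact ⟨0, by simp [Pi.single_eq_of_ne h]⟩

theorem local_approx (v : HeightOneSpectrum R) {M : Submodule R (Fin n → K)}
    {x : Fin n → v.adicCompletion K} (hx : x ∈ localLattice v M) :
    ∀ γ : (WithZero (Multiplicative ℤ))ˣ, ∃ m ∈ M, ∀ i,
      Valued.v (x i - algebraMap K (v.adicCompletion K) (m i)) <
        (γ : WithZero (Multiplicative ℤ)) := by
  rw [localLattice] at hx
  induction hx using Submodule.span_induction with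
  | mem x hx =>
    obtain ⟨m, hm, rfl⟩ := hx
    intro γ
    refine ⟨m, hm, fun i => ?_⟩
    simp
  | zero =>
    intro γ
    exact ⟨0, M.zero_mem, fun i => by simp⟩
  | add x y _ _ hx hy =>
    intro γ
    obtain ⟨m, hm, h1⟩ := hx γ
    obtain ⟨m', hm', h2⟩ := hy γ
    refine ⟨m + m', M.add_mem hm hm', fun i => ?_⟩
    have : (x + y) i - algebraMap K (v.adicCompletion K) ((m + m') i) =
        (x i - algebraMap K (v.adicCompletion K) (m i)) +
        (y i - algebraMap K (v.adicCompletion K) (m' i)) := by
      rw [Pi.add_apply, Pi.add_apply, map_add]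
      ring
    rw [this]
    exact lt_of_le_of_lt (Valuation.map_add _ _ _) (max_lt (h1 i) (h2 i))
  | smul c x _ hx =>
    intro γ
    obtain ⟨m, hm, h1⟩ := hx γ
    -- a bound for the valuations of the coordinates of `m`
    obtain ⟨B, hB⟩ : ∃ B : (WithZero (Multiplicative ℤ))ˣ, ∀ i,
        Valued.v (algebraMap K (v.adicCompletion K) (m i)) ≤ (B : WithZero (Multiplicative ℤ)) := by
      have hne : (Finset.univ.sup (fun i => Valued.v (algebraMap K (v.adicCompletion K) (m i))) ⊔ 1 :
          WithZero (Multiplicative ℤ)) ≠ 0 := by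
        intro h0
        have : (1 : WithZero (Multiplicative ℤ)) ≤ 0 := by
          rw [← h0]
          exact le_sup_right
        exact absurd this (by simp)
      refine ⟨Units.mk0 _ hne, fun i => ?_⟩
      rw [Units.val_mk0]
      exact le_sup_of_le_left (Finset.le_sup (f := fun i =>
        Valued.v (algebraMap K (v.adicCompletion K) (m i))) (Finset.mem_univ i))
    obtain ⟨r, hr⟩ := exists_approx_int v c.2 (γ * B⁻¹)
    refine ⟨r • m, M.smul_mem r hm, fun i => ?_⟩
    have hrw : (c • x) i - algebraMap K (v.adicCompletion K) ((r • m) i) =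
        (c : v.adicCompletion K) * (x i - algebraMap K (v.adicCompletion K) (m i)) +
        (-(algebraMap R (v.adicCompletion K) r - c)) *
          algebraMap K (v.adicCompletion K) (m i) := by
      rw [Rv_smul_apply, Pi.smul_apply, Algebra.smul_def, map_mul,
        ← IsScalarTower.algebraMap_apply]
      ring
    rw [hrw]
    refine lt_of_le_of_lt (Valuation.map_add _ _ _) (max_lt ?_ ?_)
    · rw [map_mul]
      have hc : Valued.v (c : v.adicCompletion K) ≤ 1 :=
        (HeightOneSpectrum.mem_adicCompletionIntegers R K v).1 c.2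
      exact lt_of_le_of_lt (mul_le_of_le_one_left' hc) (h1 i)
    · rw [map_mul, Valuation.map_neg]
      calc Valued.v (algebraMap R (v.adicCompletion K) r - (c : v.adicCompletion K)) *
            Valued.v (algebraMap K (v.adicCompletion K) (m i))
          ≤ Valued.v (algebraMap R (v.adicCompletion K) r - (c : v.adicCompletion K)) *
            (B : WithZero (Multiplicative ℤ)) := mul_le_mul_right (hB i) _
        _ < ((γ * B⁻¹ : (WithZero (Multiplicative ℤ))ˣ) : WithZero (Multiplicative ℤ)) *
            (B : WithZero (Multiplicative ℤ)) := by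
            exact mul_lt_mul_of_pos_right hr (zero_lt_iff.2 B.ne_zero)
        _ = (γ : WithZero (Multiplicative ℤ)) := by
            rw [← Units.val_mul]
            simp

/-- A full lattice absorbs every vector after multiplication by a nonzero scalar. -/
theorem ordIdeal_ne_bot_of_span {M : Submodule R (Fin n → K)}
    (hM : Submodule.span K (M : Set (Fin n → K)) = ⊤) (x : Fin n → K) : ordIdeal M x ≠ ⊥ := by
  have hx : x ∈ Submodule.span K (M : Set (Fin n → K)) := by rw [hM]; trivial
  have key : ∃ d : R, d ≠ 0 ∧ d • x ∈ M := by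
    refine Submodule.span_induction (p := fun x _ => ∃ d : R, d ≠ 0 ∧ d • x ∈ M) ?_ ?_ ?_ ?_ hx
    · intro y hy
      exact ⟨1, one_ne_zero, by simpa using hy⟩
    · exact ⟨1, one_ne_zero, by simp⟩
    · rintro y z _ _ ⟨d, hd, hdy⟩ ⟨e, he, hez⟩
      refine ⟨d * e, mul_ne_zero hd he, ?_⟩
      rw [smul_add]
      refine M.add_mem ?_ ?_
      · rw [mul_comm, mul_smul]
        exact M.smul_mem _ hdy
      · rw [mul_smul]
        exact M.smul_mem _ hez
    · rintro c y _ ⟨d, hd, hdy⟩
      obtain ⟨a, b, hb, rfl⟩ := exists_div (R := R) c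
      refine ⟨b * d, mul_ne_zero hb hd, ?_⟩
      have hbK : algebraMap R K b ≠ 0 := by simpa using hb
      have : (b * d) • (algebraMap R K a / algebraMap R K b) • y = a • d • y := by
        rw [← algebraMap_smul K (b * d), ← algebraMap_smul K a, ← algebraMap_smul K d, smul_smul,
          smul_smul]
        congr 1
        rw [map_mul]
        field_simp
      rw [this]
      exact M.smul_mem _ hdy
  obtain ⟨d, hd, h⟩ := key
  intro h0
  have : d ∈ ordIdeal M x := h
  rw [h0] at this
  exact hd (by simpa using this)

/-- Local-global principle for membership in a lattice. -/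
theorem exists_notMem_smul_mem (v : HeightOneSpectrum R) {M : Submodule R (Fin n → K)}
    (hM : Submodule.span K (M : Set (Fin n → K)) = ⊤) {x : Fin n → K}
    (hx : (fun i => algebraMap K (v.adicCompletion K) (x i)) ∈ localLattice v M) :
    ∃ s : R, s ∉ v.asIdeal ∧ s • x ∈ M := by
  classical
  -- a common multiplier for the standard basis
  have hd : ∀ i : Fin n, ∃ d : R, d ≠ 0 ∧ d • (Pi.single i (1 : K) : Fin n → K) ∈ M := by
    intro i
    obtain ⟨d, hd, hd0⟩ := Submodule.exists_mem_ne_zero_of_ne_bot
      (ordIdeal_ne_bot_of_span hM (Pi.single i (1 : K) : Fin n → K))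
    exact ⟨d, hd0, hd⟩
  choose d hd0 hdM using hd
  set D : R := ∏ i, d i with hD
  have hD0 : D ≠ 0 := Finset.prod_ne_zero_iff.2 fun i _ => hd0 i
  have hDM : ∀ i : Fin n, D • (Pi.single i (1 : K) : Fin n → K) ∈ M := by
    intro i
    rw [hD, ← Finset.prod_erase_mul _ _ (Finset.mem_univ i), mul_smul]
    exact M.smul_mem _ (hdM i)
  have hDmem : ∀ y : Fin n → K, (∀ i, ∃ r : R, y i = algebraMap R K (r * D)) → y ∈ M := by
    intro y hy
    choose r hr using hy
    have : y = ∑ i, r i • (D • (Pi.single i (1 : K) : Fin n → K)) := by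
      ext j
      rw [Finset.sum_apply, Finset.sum_eq_single j]
      · rw [hr j, ← mul_smul, Pi.smul_apply, Algebra.smul_def]
        simp
      · intro b _ hb
        rw [Pi.smul_apply, Pi.smul_apply, Pi.single_eq_of_ne (Ne.symm hb)]
        simp
      · simp
    rw [this]
    exact Submodule.sum_mem _ fun i _ => M.smul_mem _ (hDM i)
  have hDv : v.valuation K (algebraMap R K D) ≠ 0 := by
    rw [Valuation.ne_zero_iff]
    simpa using hD0
  obtain ⟨m, hm, happ⟩ := local_approx v hx (Units.mk0 _ hDv)
  have hDK : algebraMap R K D ≠ 0 := by simpa using hD0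
  have hq : ∀ i, v.valuation K ((x i - m i) / algebraMap R K D) ≤ 1 := by
    intro i
    have h1 := happ i
    rw [← map_sub, valued_algebraMap, Units.val_mk0] at h1
    rw [map_div₀]
    exact (div_le_one₀ (zero_lt_iff.2 hDv)).2 h1.le
  have hs := fun i => v.exists_primeCompl_mul_eq_of_integer ((x i - m i) / algebraMap R K D) (hq i)
  choose r s hrs using hs
  refine ⟨∏ i, (s i : R), ?_, ?_⟩
  · intro h
    obtain ⟨i, -, hi⟩ := (Ideal.IsPrime.prod_mem_iff (hp := v.isPrime)).1 h
    exact (s i).2 hi
  · have hsub : (∏ i, (s i : R)) • (x - m) ∈ M := by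
      apply hDmem
      intro i
      refine ⟨(∏ j ∈ Finset.univ.erase i, (s j : R)) * r i, ?_⟩
      rw [Pi.smul_apply, Algebra.smul_def, ← Finset.prod_erase_mul _ _ (Finset.mem_univ i),
        map_mul, Pi.sub_apply, map_mul, map_mul, ← hrs i]
      field_simp
    have := M.add_mem hsub (M.smul_mem (∏ i, (s i : R)) hm)
    rwa [← smul_add, sub_add_cancel] at this

end Pool.Agent.H723R3
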