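import Pool.Agent.H723R3.EuclidLattice

set_option autoImplicit false
set_option linter.unusedSectionVars false

/-!
# Anisotropic Euclidean quadratic forms have class number one
-/

namespace Pool.Agent.H723R3

open IsDedekindDomain

variable {R : Type*} [CommRing R] [IsDedekindDomain R] [Ring.HasFiniteQuotients R]
  {K : Type*} [Field K] [Algebra R K] [IsFractionRing R K] {n : ℕ}
  {a : Matrix (Fin n) (Fin n) R}

theorem formVal_mem_Rv (v : HeightOneSpectrum R) {x : Fin n → v.adicCompletion K}
    (hx : ∀ i, x i ∈ v.adicCompletionIntegers K) :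
    formVal a x ∈ v.adicCompletionIntegers K := by
  rw [formVal]
  exact sum_mem fun i _ => sum_mem fun j _ =>
    mul_mem (mul_mem (algebraMap_R_mem v _) (hx i)) (hx j)

theorem valuation_formVal_le_one (v : HeightOneSpectrum R) {x : Fin n → K}
    (hx : ∀ i, v.valuation K (x i) ≤ 1) : v.valuation K (formVal a x) ≤ 1 := by
  rw [← algebraMap_mem_iff, ← formVal_map]
  exact formVal_mem_Rv v fun i => (algebraMap_mem_iff v _).2 (hx i)

theorem integralOn_std : IntegralOn (formQ a K) (stdLattice R n K) := by
  intro x hx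
  choose r hr using hx
  refine ⟨formVal a r, ?_⟩
  rw [formQ_apply, ← formVal_map]
  congr 1
  ext i
  exact hr i

theorem stdLattice_span : Submodule.span K (stdLattice R n K : Set (Fin n → K)) = ⊤ := by
  rw [eq_top_iff]
  intro x _
  have : x = ∑ i, x i • (Pi.single i (1 : K) : Fin n → K) := by
    ext j
    rw [Finset.sum_apply, Finset.sum_eq_single j]
    · simp
    · intro b _ hb
      simp [Pi.single_eq_of_ne (Ne.symm hb)]
    · simp
  rw [this]
  refine Submodule.sum_mem _ fun i _ => Submodule.smul_mem _ _ (Submodule.subset_span ?_)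
  intro j
  by_cases h : j = i
  · subst h
    exact ⟨1, by simp⟩
  · exact ⟨0, by simp [Pi.single_eq_of_ne h]⟩

/-- The embedding of a lattice in its completion. -/
theorem mem_localLattice (v : HeightOneSpectrum R) {M : Submodule R (Fin n → K)} {x : Fin n → K}
    (hx : x ∈ M) : (fun i => algebraMap K (v.adicCompletion K) (x i)) ∈ localLattice v M :=
  Submodule.subset_span ⟨x, hx, rfl⟩

/-- A lattice in the genus of `R ^ n` is integral. -/
theorem integralOn_of_inGenus {M : Submodule R (Fin n → K)} (hM : InGenus a M) :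
    IntegralOn (formQ a K) M := by
  intro x hx
  rw [formQ_apply]
  have hmem : formVal a x ∈ (algebraMap R K).range := by
    apply HeightOneSpectrum.mem_integers_of_valuation_le_one
    intro v
    obtain ⟨e, he⟩ := hM.locally_isometric v
    have h1 := he ⟨_, mem_localLattice v hx⟩
    have h2 : formVal a (fun i => algebraMap K (v.adicCompletion K) (x i)) ∈
        v.adicCompletionIntegers K := by
      rw [← h1]
      exact formVal_mem_Rv v ((mem_local_std v _).1 (e ⟨_, mem_localLattice v hx⟩).2)
    rwa [formVal_map, algebraMap_mem_iff] at h2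
  obtain ⟨r, hr⟩ := hmem
  exact ⟨r, hr⟩

/-- The local step: an isometry `M_v ≃ R_v ^ n` produces, from a vector `x₀ ∉ M_v` such that
`M + R x₀` is integral, a vector `x'` of `K ^ n` outside `R ^ n` with `q (x' + R ^ n) ⊆ R`. -/
theorem exists_bad_vector (v : HeightOneSpectrum R) {M : Submodule R (Fin n → K)}
    (hM : InGenus a M) {x₀ : Fin n → K} {d : R} (hd : d ≠ 0) (hdx : d • x₀ ∈ M)
    (hx₀ : (fun i => algebraMap K (v.adicCompletion K) (x₀ i)) ∉ localLattice v M)
    (hint : ∀ m ∈ M, ∃ r : R, algebraMap R K r = formVal a (x₀ + m)) :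
    ∃ x' : Fin n → K, x' ∉ stdLattice R n K ∧
      ∀ y ∈ stdLattice R n K, ∃ r : R, algebraMap R K r = formVal a (x' - y) := by
  classical
  set Kv := v.adicCompletion K with hKv
  set Q := formQ a Kv with hQ
  set ι : (Fin n → K) → (Fin n → Kv) := fun x i => algebraMap K Kv (x i) with hι
  obtain ⟨e, he⟩ := hM.locally_isometric v
  have hdKv : algebraMap R Kv d ≠ 0 := by
    rw [IsScalarTower.algebraMap_apply R K Kv]
    simpa using hd
  have hιadd : ∀ x y, ι (x + y) = ι x + ι y := by
    intro x y
    ext i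
    simp [hι]
  have hιsmul : ∀ (r : R) x, ι (r • x) = algebraMap R Kv r • ι x := by
    intro r x
    funext i
    change algebraMap K Kv (r • x i) = algebraMap R Kv r * algebraMap K Kv (x i)
    rw [Algebra.smul_def, map_mul, ← IsScalarTower.algebraMap_apply]
  -- values and polars on the local lattice
  have hQι : ∀ x, Q (ι x) = algebraMap K Kv (formVal a x) := by
    intro x
    rw [hQ, formQ_apply, hι, formVal_map]
  have hQ0 : Q (ι x₀) ∈ v.adicCompletionIntegers K := by
    obtain ⟨r, hr⟩ := hint 0 M.zero_mem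
    rw [add_zero] at hr
    rw [hQι, ← hr, ← IsScalarTower.algebraMap_apply]
    exact algebraMap_R_mem v r
  have hMint := integralOn_of_inGenus hM
  have hpol : ∀ z ∈ localLattice v M, QuadraticMap.polar Q (ι x₀) z ∈ v.adicCompletionIntegers K := by
    intro z hz
    rw [localLattice] at hz
    induction hz using Submodule.span_induction with
    | mem z hz =>
      obtain ⟨m, hm, rfl⟩ := hz
      change QuadraticMap.polar Q (ι x₀) (ι m) ∈ _
      obtain ⟨r, hr⟩ := hint m hm
      obtain ⟨r', hr'⟩ := hMint m hm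
      rw [formQ_apply] at hr'
      rw [QuadraticMap.polar, ← hιadd, hQι, hQι m, ← hr, ← hr', ← IsScalarTower.algebraMap_apply,
        ← IsScalarTower.algebraMap_apply]
      exact sub_mem (sub_mem (algebraMap_R_mem v r) hQ0) (algebraMap_R_mem v r')
    | zero =>
      rw [QuadraticMap.polar_zero_right]
      exact zero_mem _
    | add x y _ _ hx hy =>
      rw [QuadraticMap.polar_add_right]
      exact add_mem hx hy
    | smul c x _ hx =>
      have : c • x = (c : Kv) • x := rfl
      rw [this, QuadraticMap.polar_smul_right, smul_eq_mul]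
      exact mul_mem c.2 hx
  -- the vector `z = e (d x₀)`
  set m0 : localLattice v M := ⟨ι (d • x₀), mem_localLattice v hdx⟩ with hm0
  set z : Fin n → Kv := (e m0 : Fin n → Kv) with hz
  set x₁ : Fin n → Kv := (algebraMap R Kv d)⁻¹ • z with hx₁
  have hdx₁ : algebraMap R Kv d • x₁ = z := by
    rw [hx₁, smul_smul, mul_inv_cancel₀ hdKv, one_smul]
  set dv : v.adicCompletionIntegers K := ⟨algebraMap R Kv d, algebraMap_R_mem v d⟩ with hdv
  have hx₁not : x₁ ∉ localLattice v (stdLattice R n K) := by
    intro hmem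
    apply hx₀
    have h1 : dv • (⟨x₁, hmem⟩ : localLattice v (stdLattice R n K)) = e m0 := by
      apply Subtype.ext
      exact hdx₁
    have h2 : dv • e.symm ⟨x₁, hmem⟩ = m0 := by
      rw [← map_smul, h1, LinearEquiv.symm_apply_apply]
    have h3 : algebraMap R Kv d • (e.symm ⟨x₁, hmem⟩ : Fin n → Kv) =
        algebraMap R Kv d • ι x₀ := by
      rw [← hιsmul]
      exact congrArg Subtype.val h2
    have h4 : (e.symm ⟨x₁, hmem⟩ : Fin n → Kv) = ι x₀ := smul_right_injective _ hdKv h3
    change ι x₀ ∈ _
    rw [← h4]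
    exact (e.symm ⟨x₁, hmem⟩).2
  have hval : ∀ l ∈ localLattice v (stdLattice R n K),
      Q (x₁ + l) ∈ v.adicCompletionIntegers K := by
    intro l hl
    set m' := e.symm ⟨l, hl⟩ with hm'
    have h1 : e (m0 + dv • m') = ⟨z, (e m0).2⟩ + dv • ⟨l, hl⟩ := by
      rw [map_add, map_smul, hm', LinearEquiv.apply_symm_apply]
    have h2 := he (m0 + dv • m')
    rw [h1] at h2
    have h3 : (((⟨z, (e m0).2⟩ + dv • ⟨l, hl⟩ : localLattice v (stdLattice R n K))) :
        Fin n → Kv) = algebraMap R Kv d • (x₁ + l) := by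
      rw [smul_add, hdx₁]
      rfl
    have h4 : ((m0 + dv • m' : localLattice v M) : Fin n → Kv) =
        algebraMap R Kv d • (ι x₀ + (m' : Fin n → Kv)) := by
      rw [smul_add, ← hιsmul]
      rfl
    rw [h3, h4, ← formQ_apply, ← formQ_apply, QuadraticMap.map_smul, QuadraticMap.map_smul,
      smul_eq_mul, smul_eq_mul] at h2
    have h5 : Q (x₁ + l) = Q (ι x₀ + (m' : Fin n → Kv)) :=
      mul_left_cancel₀ (mul_ne_zero hdKv hdKv) h2
    rw [h5, QuadraticMap.map_add (⇑Q)]
    refine add_mem (add_mem hQ0 ?_) (hpol _ m'.2)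
    have h6 := he m'
    rw [hQ, formQ_apply, ← h6, hm', LinearEquiv.apply_symm_apply]
    exact formVal_mem_Rv v ((mem_local_std v _).1 hl)
  -- strong approximation
  have happ := fun i => exists_approx_strong v (x₁ i)
  choose x' hx'v hx'w using happ
  have hdiff : ι x' - x₁ ∈ localLattice v (stdLattice R n K) :=
    (mem_local_std v _).2 fun i => hx'v i
  refine ⟨x', ?_, ?_⟩
  · intro hmem
    apply hx₁not
    have h1 := (localLattice v (stdLattice R n K)).sub_mem
      (mem_localLattice v hmem) hdiff
    have h2 : (fun i => algebraMap K (v.adicCompletion K) (x' i)) - (ι x' - x₁) = x₁ := by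
      change ι x' - (ι x' - x₁) = x₁
      abel
    rwa [h2] at h1
  · intro y hy
    have hmem : formVal a (x' - y) ∈ (algebraMap R K).range := by
      apply HeightOneSpectrum.mem_integers_of_valuation_le_one
      intro w
      by_cases hw : w = v
      · subst hw
        rw [← algebraMap_mem_iff, ← hQι]
        have h1 : ι (x' - y) = x₁ + ((ι x' - x₁) - ι y) := by
          have : ι (x' - y) = ι x' - ι y := by
            ext i
            simp [hι]
          rw [this]
          abel
        rw [h1]
        exact hval _ ((localLattice w (stdLattice R n K)).sub_mem hdiff (mem_localLattice w hy))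
      · apply valuation_formVal_le_one
        intro i
        rw [Pi.sub_apply]
        refine (Valuation.map_sub _ _ _).trans (max_le (hx'w i w hw) ?_)
        obtain ⟨r, hr⟩ := hy i
        rw [← hr]
        exact HeightOneSpectrum.valuation_le_one w r
    obtain ⟨r, hr⟩ := hmem
    exact ⟨r, hr⟩

/-- **Anisotropic Euclidean quadratic forms have class number one.** -/
theorem classNumberOne (hanis : IsAnisotropic K a) (heucl : IsEuclidean K a) :
    HasClassNumberOne K a := by
  intro M hM
  have hMint := integralOn_of_inGenus hM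
  have hLfin : ∀ x : Fin n → K, ordIdeal (stdLattice R n K) x ≠ ⊥ :=
    fun x => ordIdeal_ne_bot_of_span stdLattice_span x
  have hanis' : ∀ x : Fin n → K, formQ a K x = 0 → x = 0 := by
    intro x hx
    by_contra h
    exact hanis x h (by rwa [formQ_apply] at hx)
  have heucl' : ∀ x : Fin n → K, ∃ y ∈ stdLattice R n K,
      fracNorm R K (formQ a K (x - y)) < 1 := by
    intro x
    obtain ⟨y, hy⟩ := heucl x
    refine ⟨fun i => algebraMap R K (y i), fun i => ⟨y i, rfl⟩, ?_⟩
    rw [formQ_apply]
    exact hy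
  obtain ⟨g, hg1, hg2⟩ := exists_isometry_le hanis' integralOn_std hLfin heucl' _ M hMint
    (relIndex_ne_zero_of_fg hLfin M hM.fg) rfl
  have hgform : ∀ x, formVal a (g x) = formVal a x := by
    intro x
    rw [← formQ_apply, ← formQ_apply, hg1]
  -- the image of `M` is the whole standard lattice
  have hsurj : ∀ x ∈ stdLattice R n K, g.symm x ∈ M := by
    intro x hx
    by_contra hnot
    set x₀ := g.symm x with hx₀
    have hgx₀ : g x₀ = x := g.apply_symm_apply x
    have hne : ordIdeal M x₀ ≠ ⊤ := by
      intro h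
      have h1 : (1 : R) ∈ ordIdeal M x₀ := by rw [h]; trivial
      rw [mem_ordIdeal, one_smul] at h1
      exact hnot h1
    have hnb : ordIdeal M x₀ ≠ ⊥ := ordIdeal_ne_bot_of_span hM.span_eq_top x₀
    obtain ⟨𝔪, hmax, hle⟩ := Ideal.exists_le_maximal _ hne
    have h𝔪 : 𝔪 ≠ ⊥ := by
      rintro rfl
      exact hnb (le_bot_iff.1 hle)
    obtain ⟨v, hv⟩ : ∃ v : HeightOneSpectrum R, v.asIdeal = 𝔪 := ⟨⟨𝔪, hmax.isPrime, h𝔪⟩, rfl⟩
    obtain ⟨d, hd, hd0⟩ := Submodule.exists_mem_ne_zero_of_ne_bot hnb
    have hloc : (fun i => algebraMap K (v.adicCompletion K) (x₀ i)) ∉ localLattice v M := by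
      intro h
      obtain ⟨s, hs, hsM⟩ := exists_notMem_smul_mem v hM.span_eq_top h
      apply hs
      rw [hv]
      exact hle hsM
    have hint : ∀ m ∈ M, ∃ r : R, algebraMap R K r = formVal a (x₀ + m) := by
      intro m hm
      have h1 : g (x₀ + m) ∈ stdLattice R n K := by
        rw [map_add, hgx₀]
        exact (stdLattice R n K).add_mem hx (hg2 m hm)
      obtain ⟨r, hr⟩ := integralOn_std (a := a) _ h1
      exact ⟨r, by rw [hr, formQ_apply, hgform]⟩
    obtain ⟨x', hx'1, hx'2⟩ := exists_bad_vector v hM hd0 hd hloc hint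
    obtain ⟨y, hy⟩ := heucl x'
    have hymem : (fun i => algebraMap R K (y i)) ∈ stdLattice R n K := fun i => ⟨y i, rfl⟩
    obtain ⟨r, hr⟩ := hx'2 _ hymem
    have hr0 : r ≠ 0 := by
      rintro rfl
      rw [map_zero] at hr
      refine hanis _ ?_ hr.symm
      intro h0
      rw [sub_eq_zero] at h0
      exact hx'1 (h0 ▸ hymem)
    have h1 : formVal a (fun i => x' i - algebraMap R K (y i)) = algebraMap R K r := hr.symm
    rw [h1, fracNorm_algebraMap] at hy
    have h2 : 1 ≤ ringNorm R r := ringNorm_pos hr0
    have h3 : (1 : ℚ) ≤ ringNorm R r := by exact_mod_cast h2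
    exact absurd hy (not_lt.2 h3)
  -- conclusion
  refine ⟨LinearEquiv.ofBijective
    (((g.toLinearMap.restrictScalars R).restrict (p := M) (q := stdLattice R n K) hg2)) ⟨?_, ?_⟩,
    ?_⟩
  · intro x y hxy
    apply Subtype.ext
    exact g.injective (congrArg Subtype.val hxy)
  · intro y
    refine ⟨⟨g.symm y, hsurj y y.2⟩, ?_⟩
    apply Subtype.ext
    exact g.apply_symm_apply (y : Fin n → K)
  · intro x
    exact hgform x

end Pool.Agent.H723R3
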