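import Pool.Agent.H723R3.SquaresLocal

set_option autoImplicit false
set_option linter.unusedSectionVars false

/-!
# The core lemma: sums of at least twelve squares in a given residue class
-/

namespace Pool.Agent.H723R3.Squares

theorem q4_nonneg (x : Fin 4 → ℤ) : 0 ≤ q4 x := by
  rw [q4]; positivity

/-- A vector orthogonal to `(v, w)`, depending linearly on `x`: first half. -/
def qmul (w x : Fin 4 → ℤ) : Fin 4 → ℤ :=
  ![w 0 * x 0 - w 1 * x 1 - w 2 * x 2 - w 3 * x 3,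
    w 0 * x 1 + w 1 * x 0 + w 2 * x 3 - w 3 * x 2,
    w 0 * x 2 - w 1 * x 3 + w 2 * x 0 + w 3 * x 1,
    w 0 * x 3 + w 1 * x 2 - w 2 * x 1 + w 3 * x 0]

/-- A vector orthogonal to `(v, w)`, depending linearly on `x`: second half (up to sign). -/
def qmulc (v x : Fin 4 → ℤ) : Fin 4 → ℤ :=
  ![v 0 * x 0 + v 1 * x 1 + v 2 * x 2 + v 3 * x 3,
    -(v 0 * x 1) + v 1 * x 0 - v 2 * x 3 + v 3 * x 2,
    -(v 0 * x 2) + v 1 * x 3 + v 2 * x 0 - v 3 * x 1,
    -(v 0 * x 3) - v 1 * x 2 + v 2 * x 1 + v 3 * x 0]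

theorem q4_clifford (v w x : Fin 4 → ℤ) (m : ℤ) :
    q4 (fun i => v i + m * qmul w x i) + q4 (fun i => w i - m * qmulc v x i) =
      (q4 v + q4 w) * (1 + m ^ 2 * q4 x) := by
  simp only [q4, qmul, qmulc, Matrix.cons_val_zero, Matrix.cons_val_one, Matrix.cons_val]
  ring

theorem core {m : ℕ} (hm : Odd m) (v w a : Fin 4 → ℤ) (s : ℤ) (hs : 0 ≤ s) (r : ℕ) (hr : 0 < r)
    (h : (m : ℤ) ^ 2 ∣ q4 v + q4 w + q4 a + s - r) :
    ∃ v' w' a' : Fin 4 → ℤ, (∀ i, (m : ℤ) ∣ v' i - v i) ∧ (∀ i, (m : ℤ) ∣ w' i - w i) ∧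
      (∀ i, (m : ℤ) ∣ a' i - a i) ∧ ∃ J : ℕ, q4 v' + q4 w' + q4 a' + s = 2 ^ J * r := by
  -- Step 1: make `q4 v + q4 w` odd
  obtain ⟨v1, hv1, hv1q, hodd⟩ : ∃ v1 : Fin 4 → ℤ, (∀ i, (m : ℤ) ∣ v1 i - v i) ∧
      (m : ℤ) ^ 2 ∣ q4 v1 - q4 v ∧ Odd (q4 v1 + q4 w) := by
    by_cases ho : Odd (q4 v + q4 w)
    · exact ⟨v, fun i => by simp, by simp, ho⟩
    · have hmZ : Odd (m : ℤ) := by exact_mod_cast hm
      refine ⟨![v 0 + m ^ 2, v 1, v 2, v 3], ?_, ?_, ?_⟩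
      · intro i
        fin_cases i
        · exact ⟨m, by simp; ring⟩
        · exact ⟨0, by simp⟩
        · exact ⟨0, by simp⟩
        · exact ⟨0, by simp⟩
      · refine ⟨2 * v 0 + m ^ 2, ?_⟩
        simp only [q4, Matrix.cons_val_zero, Matrix.cons_val_one, Matrix.cons_val]
        ring
      · have h1 : q4 ![v 0 + (m : ℤ) ^ 2, v 1, v 2, v 3] + q4 w =
            (q4 v + q4 w) + (2 * (v 0 * m ^ 2) + (m ^ 2) ^ 2) := by
          simp only [q4, Matrix.cons_val_zero, Matrix.cons_val_one, Matrix.cons_val]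
          ring
        rw [h1]
        have he : Even (q4 v + q4 w) := Int.not_odd_iff_even.1 ho
        refine he.add_odd ?_
        exact (even_two_mul _).add_odd ((hmZ.pow).pow)
  -- the odd number `N`
  set N : ℕ := (q4 v1 + q4 w).toNat with hN
  have hNZ : (N : ℤ) = q4 v1 + q4 w :=
    Int.toNat_of_nonneg (add_nonneg (q4_nonneg _) (q4_nonneg _))
  have hNodd : Odd N := by
    have : Odd (N : ℤ) := by rw [hNZ]; exact hodd
    exact_mod_cast this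
  -- Step 2
  obtain ⟨D, hD⟩ : ∃ D : ℤ, (r : ℤ) - s - N - q4 a = m ^ 2 * D := by
    obtain ⟨d1, hd1⟩ := h
    obtain ⟨d2, hd2⟩ := hv1q
    refine ⟨-d1 - d2, ?_⟩
    rw [hNZ]
    linear_combination -hd1 - hd2
  obtain ⟨t, ht⟩ := exists_adjust hm hNodd a D
  set a' : Fin 4 → ℤ := fun i => a i + m * t i with ha'
  set Q2 : ℤ := N + q4 a' + s with hQ2
  have hQ2nn : 0 ≤ Q2 := by
    rw [hQ2]
    have := q4_nonneg a'
    positivity
  have hdiv : ((m : ℤ) ^ 2 * N) ∣ (r : ℤ) - Q2 := by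
    obtain ⟨e, he⟩ := ht
    refine ⟨-e, ?_⟩
    rw [hQ2]
    linear_combination hD - he
  -- Step 3
  set n0 : ℕ := m ^ 2 * N with hn0
  have hn0odd : Odd n0 := (hm.pow).mul hNodd
  have hcop : Nat.Coprime 2 n0 := Nat.coprime_two_left.2 hn0odd
  have hphi : 0 < Nat.totient n0 := Nat.totient_pos.2 hn0odd.pos
  set J : ℕ := Nat.totient n0 * (Q2.toNat + 1) with hJ
  have hJ1 : (n0 : ℤ) ∣ 2 ^ J - 1 := by
    have h1 : 2 ^ J ≡ 1 [MOD n0] := by
      rw [hJ, pow_mul]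
      have := (Nat.ModEq.pow_totient hcop).pow (Q2.toNat + 1)
      simpa using this
    have h2 := (Nat.modEq_iff_dvd.1 h1.symm)
    simpa using h2
  have hJ2 : Q2 ≤ 2 ^ J := by
    have h1 : Q2.toNat < 2 ^ J := by
      calc Q2.toNat < Q2.toNat + 1 := Nat.lt_succ_self _
        _ ≤ J := by rw [hJ]; exact Nat.le_mul_of_pos_left _ hphi
        _ < 2 ^ J := Nat.lt_two_pow_self
    have h2 : (Q2.toNat : ℤ) = Q2 := Int.toNat_of_nonneg hQ2nn
    have h3 : (Q2.toNat : ℤ) < 2 ^ J := by exact_mod_cast h1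
    rw [← h2]
    exact h3.le
  have hdiv2 : (n0 : ℤ) ∣ 2 ^ J * r - Q2 := by
    have : (2 : ℤ) ^ J * r - Q2 = (2 ^ J - 1) * r + (r - Q2) := by ring
    rw [this]
    refine dvd_add (hJ1.mul_right _) ?_
    rw [hn0]
    push_cast
    exact hdiv
  obtain ⟨A, hA⟩ := hdiv2
  have hn0pos : (0 : ℤ) < n0 := by exact_mod_cast hn0odd.pos
  have hAnn : 0 ≤ A := by
    have h1 : (0 : ℤ) ≤ 2 ^ J * r - Q2 := by
      have hr1 : (1 : ℤ) ≤ r := by exact_mod_cast hr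
      have : (2 : ℤ) ^ J * 1 ≤ 2 ^ J * r := by
        apply mul_le_mul_of_nonneg_left hr1
        positivity
      linarith
    rw [hA] at h1
    exact nonneg_of_mul_nonneg_right h1 hn0pos
  -- Step 4
  obtain ⟨x0, x1, x2, x3, hx⟩ := Nat.sum_four_squares A.toNat
  set x : Fin 4 → ℤ := ![(x0 : ℤ), x1, x2, x3] with hxdef
  have hqx : q4 x = A := by
    rw [← Int.toNat_of_nonneg hAnn, ← hx]
    simp [q4, hxdef]
  refine ⟨fun i => v1 i + m * qmul w x i, fun i => w i - m * qmulc v1 x i, a', ?_, ?_, ?_, J, ?_⟩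
  · intro i
    have : v1 i + m * qmul w x i - v i = (v1 i - v i) + m * qmul w x i := by ring
    rw [this]
    exact dvd_add (hv1 i) (Dvd.intro _ rfl)
  · intro i
    exact ⟨-qmulc v1 x i, by ring⟩
  · intro i
    exact ⟨t i, by rw [ha']; ring⟩
  · rw [q4_clifford, hqx, ← hNZ]
    have hn0Z : (n0 : ℤ) = m ^ 2 * N := by rw [hn0]; push_cast; ring
    rw [hn0Z] at hA
    linear_combination -hA

end Pool.Agent.H723R3.Squares
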