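import Mathlib

set_option autoImplicit false
set_option linter.unusedSectionVars false

/-!
# Sums of squares with congruence conditions: the arithmetic behind the Euclidean property of
`x₁² + ⋯ + x_n²` over `ℤ[1/2]`
-/

namespace Pool.Agent.H723R3.Squares

/-- sum of four squares of integers -/
def q4 (x : Fin 4 → ℤ) : ℤ := x 0 ^ 2 + x 1 ^ 2 + x 2 ^ 2 + x 3 ^ 2

/-- scalar product of two integer vectors of length four -/
def dot4 (x y : Fin 4 → ℤ) : ℤ := x 0 * y 0 + x 1 * y 1 + x 2 * y 2 + x 3 * y 3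

/-- Splitting a modulus into a part dividing a power of `m` and a part prime to `m`. -/
theorem exists_split (m : ℕ) : ∀ M : ℕ, 0 < M →
    ∃ A B k : ℕ, M = A * B ∧ A ∣ m ^ k ∧ Nat.Coprime B m := by
  intro M
  induction M using Nat.strong_induction_on with
  | _ M ih =>
    intro hM
    by_cases hc : Nat.Coprime M m
    · exact ⟨1, M, 0, by simp, by simp, hc⟩
    · set g := Nat.gcd M m with hg
      have hg1 : g ≠ 1 := hc
      have hg0 : 0 < g := Nat.gcd_pos_of_pos_left _ hM
      obtain ⟨M1, hM1⟩ : g ∣ M := Nat.gcd_dvd_left _ _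
      have hM1pos : 0 < M1 := by
        rcases Nat.eq_zero_or_pos M1 with h | h
        · rw [h, mul_zero] at hM1; omega
        · exact h
      have hlt : M1 < M := by
        rw [hM1]
        have : 2 ≤ g := by omega
        nlinarith
      obtain ⟨A, B, k, h1, h2, h3⟩ := ih M1 hlt hM1pos
      refine ⟨g * A, B, k + 1, ?_, ?_, h3⟩
      · rw [hM1, h1]; ring
      · rw [pow_succ, mul_comm]
        exact mul_dvd_mul h2 (Nat.gcd_dvd_right _ _)

/-- Chinese remaindering for two coprime moduli, in `ℤ`. -/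
theorem exists_crt {A B : ℤ} (h : IsCoprime A B) (α β : ℤ) : ∃ x : ℤ, A ∣ x - α ∧ B ∣ x - β := by
  obtain ⟨u, v, huv⟩ := h
  refine ⟨α * (v * B) + β * (u * A), ?_, ?_⟩
  · refine ⟨u * (β - α), ?_⟩
    linear_combination α * huv
  · refine ⟨v * (α - β), ?_⟩
    linear_combination β * huv

/-- Bezout for four integers and a modulus. -/
theorem exists_bezout {a : Fin 4 → ℤ} {m : ℤ}
    (h : ∀ p : ℤ, Prime p → p ∣ m → ¬ (∀ i, p ∣ a i)) {A : ℤ} {k : ℕ} (hA : A ∣ m ^ k) :
    ∃ e : Fin 4 → ℤ, A ∣ dot4 a e - 1 := by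
  -- the ideal generated by the `a i` and `A` is everything
  set I : Ideal ℤ := Ideal.span {a 0, a 1, a 2, a 3, A} with hI
  have htop : I = ⊤ := by
    by_contra hne
    obtain ⟨P, hmax, hle⟩ := Ideal.exists_le_maximal I hne
    have hmem : ∀ x ∈ ({a 0, a 1, a 2, a 3, A} : Set ℤ), x ∈ P := fun x hx =>
      hle (Ideal.subset_span hx)
    obtain ⟨p, hp⟩ := (IsPrincipalIdealRing.principal P).principal
    have hp' : P = Ideal.span {p} := hp
    have hdvd : ∀ x ∈ ({a 0, a 1, a 2, a 3, A} : Set ℤ), p ∣ x := by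
      intro x hx
      have := hmem x hx
      rw [hp', Ideal.mem_span_singleton] at this
      exact this
    by_cases hp0 : p = 0
    · -- then `P = ⊥` is maximal in `ℤ`, impossible
      have : P = ⊥ := by rw [hp', hp0]; simp
      rw [this] at hmax
      exact Int.not_isField (Ring.isField_iff_maximal_bot.2 hmax)
    · have hprime : Prime p := by
        have hPp : P.IsPrime := hmax.isPrime
        rw [hp', Ideal.span_singleton_prime hp0] at hPp
        exact hPp
      have hpm : p ∣ m := hprime.dvd_of_dvd_pow ((hdvd A (by simp)).trans hA)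
      refine h p hprime hpm ?_
      intro i
      fin_cases i
      · exact hdvd _ (by simp)
      · exact hdvd _ (by simp)
      · exact hdvd _ (by simp)
      · exact hdvd _ (by simp)
  have h1 : (1 : ℤ) ∈ I := by rw [htop]; trivial
  rw [hI] at h1
  simp only [Ideal.mem_span_insert, Ideal.mem_span_singleton'] at h1
  obtain ⟨c0, z0, ⟨c1, z1, ⟨c2, z2, ⟨c3, z3, ⟨c4, rfl⟩, rfl⟩, rfl⟩, rfl⟩, h⟩ := h1
  refine ⟨![c0, c1, c2, c3], -c4, ?_⟩
  simp only [dot4, Matrix.cons_val_zero, Matrix.cons_val_one, Matrix.cons_val]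
  linear_combination -h

theorem zmod_unit_two {A : ℕ} (hA : Odd A) : IsUnit ((2 : ℤ) : ZMod A) := by
  have h : Nat.Coprime 2 A := Nat.coprime_two_left.2 hA
  have := (ZMod.isUnit_iff_coprime 2 A).2 h
  exact_mod_cast this

/-- Solving `2 c + m'^2 c^2 E ≡ D` modulo an odd `A` dividing a power of `m'`. -/
theorem exists_quad {A : ℕ} (hA : Odd A) {m' : ℤ} {k : ℕ} (hAm : (A : ℤ) ∣ m' ^ k) (E D : ℤ) :
    ∃ c : ℤ, (A : ℤ) ∣ 2 * c + m' ^ 2 * c ^ 2 * E - D := by
  have hA0 : A ≠ 0 := by rintro rfl; simp at hA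
  have : NeZero A := ⟨hA0⟩
  let f : ZMod A → ZMod A := fun c => 2 * c + (m' : ZMod A) ^ 2 * c ^ 2 * (E : ZMod A)
  have hnil : IsNilpotent (m' : ZMod A) := by
    refine ⟨k, ?_⟩
    have := (ZMod.intCast_zmod_eq_zero_iff_dvd (m' ^ k) A).2 hAm
    exact_mod_cast this
  have hinj : Function.Injective f := by
    intro c d hcd
    have h1 : (c - d) * (2 + (m' : ZMod A) * ((m' : ZMod A) * (c + d) * (E : ZMod A))) = 0 := by
      have : f c - f d = 0 := sub_eq_zero.2 hcd
      simp only [f] at this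
      linear_combination this
    have h2 : IsUnit (2 + (m' : ZMod A) * ((m' : ZMod A) * (c + d) * (E : ZMod A))) := by
      have hn : IsNilpotent ((m' : ZMod A) * ((m' : ZMod A) * (c + d) * (E : ZMod A))) :=
        (Commute.all _ _).isNilpotent_mul_right hnil
      have h2u : IsUnit (2 : ZMod A) := by
        have := zmod_unit_two hA
        simpa using this
      exact IsNilpotent.isUnit_add_left_of_commute hn h2u (Commute.all _ _)
    have h3 := (h2.mul_left_eq_zero).1 h1
    exact sub_eq_zero.1 h3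
  have hsurj := Finite.surjective_of_injective hinj
  obtain ⟨c, hc⟩ := hsurj (D : ZMod A)
  obtain ⟨c', rfl⟩ := ZMod.intCast_surjective c
  refine ⟨c', ?_⟩
  rw [← ZMod.intCast_zmod_eq_zero_iff_dvd]
  simp only [f] at hc
  push_cast
  rw [hc, sub_self]

/-- Every residue class modulo `B` contains a sum of four squares. -/
theorem exists_four_squares_mod (B : ℕ) (hB : 0 < B) (D : ℤ) :
    ∃ y : Fin 4 → ℤ, (B : ℤ) ∣ q4 y - D := by
  have hB' : (B : ℤ) ≠ 0 := by exact_mod_cast hB.ne'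
  set d : ℕ := (D % B).toNat with hd
  have hd' : (d : ℤ) = D % B := Int.toNat_of_nonneg (Int.emod_nonneg _ hB')
  obtain ⟨a, b, c, e, h⟩ := Nat.sum_four_squares d
  refine ⟨![a, b, c, e], ?_⟩
  have h1 : q4 ![(a : ℤ), b, c, e] = D % B := by
    rw [← hd', ← h]
    simp [q4]
  rw [h1]
  refine ⟨-(D / B), ?_⟩
  have := Int.emod_add_mul_ediv D B
  linear_combination this

/-- **Local solvability, primitive case.** -/
theorem exists_adjust_prim {m' M : ℕ} (hm : Odd m') (hM : Odd M) (a : Fin 4 → ℤ)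
    (h : ∀ p : ℤ, Prime p → p ∣ (m' : ℤ) → ¬ (∀ i, p ∣ a i)) (D : ℤ) :
    ∃ t : Fin 4 → ℤ, ((m' : ℤ) * M) ∣ 2 * dot4 a t + m' * q4 t - m' * D := by
  obtain ⟨A, B, k, hAB, hA, hB⟩ := exists_split m' M hM.pos
  have hMpos := hM.pos
  have hApos : 0 < A := by
    rcases Nat.eq_zero_or_pos A with h0 | h0
    · rw [h0, zero_mul] at hAB; omega
    · exact h0
  have hBpos : 0 < B := by
    rcases Nat.eq_zero_or_pos B with h0 | h0
    · rw [h0, mul_zero] at hAB; omega
    · exact h0
  have hAodd : Odd A := by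
    rw [hAB] at hM
    exact (Nat.odd_mul.1 hM).1
  have hAint : (A : ℤ) ∣ (m' : ℤ) ^ k := by exact_mod_cast hA
  obtain ⟨e, he⟩ := exists_bezout h hAint
  obtain ⟨c, hc⟩ := exists_quad hAodd hAint (q4 e) D
  -- the part prime to `m'`
  have hcopB : IsCoprime (m' : ℤ) (B : ℤ) := by
    rw [Int.isCoprime_iff_gcd_eq_one]
    simpa [Nat.coprime_comm] using hB
  obtain ⟨u, v, huv⟩ := hcopB
  obtain ⟨y, hy⟩ := exists_four_squares_mod B hBpos (q4 a + m' ^ 2 * D)
  -- combine
  have hcop : IsCoprime ((m' : ℤ) * A) (B : ℤ) := by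
    have hmB : IsCoprime (m' : ℤ) (B : ℤ) := ⟨u, v, huv⟩
    exact IsCoprime.mul_left hmB ((hmB.pow_left (m := k)).of_isCoprime_of_dvd_left hAint)
  have hcrt := fun i => exists_crt hcop (c * m' * e i) (u * (y i - a i))
  choose t ht1 ht2 using hcrt
  refine ⟨t, ?_⟩
  have key : IsCoprime ((m' : ℤ) * A) (B : ℤ) := hcop
  have hprod : ((m' : ℤ) * M) = ((m' : ℤ) * A) * B := by
    rw [hAB]; push_cast; ring
  rw [hprod]
  apply key.mul_dvd
  · -- modulo `m' A`
    choose s hs using ht1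
    obtain ⟨c1, hc1⟩ := hc
    obtain ⟨e1, he1⟩ := he
    simp only [dot4, q4] at *
    have hs0 := hs 0
    have hs1 := hs 1
    have hs2 := hs 2
    have hs3 := hs 3
    have t0 : t 0 = c * m' * e 0 + m' * A * s 0 := by linarith
    have t1 : t 1 = c * m' * e 1 + m' * A * s 1 := by linarith
    have t2 : t 2 = c * m' * e 2 + m' * A * s 2 := by linarith
    have t3 : t 3 = c * m' * e 3 + m' * A * s 3 := by linarith
    rw [t0, t1, t2, t3]
    refine ⟨c1 + 2 * c * e1 + 2 * (a 0 * s 0 + a 1 * s 1 + a 2 * s 2 + a 3 * s 3) +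
      m' ^ 2 * (2 * c * (e 0 * s 0 + e 1 * s 1 + e 2 * s 2 + e 3 * s 3) +
        A * (s 0 ^ 2 + s 1 ^ 2 + s 2 ^ 2 + s 3 ^ 2)), ?_⟩
    linear_combination (m' : ℤ) * hc1 + 2 * c * m' * he1
  · -- modulo `B`
    have hdvd : (B : ℤ) ∣ (m' : ℤ) * (2 * dot4 a t + m' * q4 t - m' * D) := by
      choose s hs using ht2
      obtain ⟨y1, hy1⟩ := hy
      simp only [dot4, q4] at *
      have t0 : t 0 = u * (y 0 - a 0) + B * s 0 := by linarith [hs 0]
      have t1 : t 1 = u * (y 1 - a 1) + B * s 1 := by linarith [hs 1]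
      have t2 : t 2 = u * (y 2 - a 2) + B * s 2 := by linarith [hs 2]
      have t3 : t 3 = u * (y 3 - a 3) + B * s 3 := by linarith [hs 3]
      -- `a i + m' t i = y i + B (m' s i - v (y i - a i))`
      have r0 : (m' : ℤ) * t 0 = y 0 - a 0 + B * (m' * s 0 - v * (y 0 - a 0)) := by
        rw [t0]; linear_combination (y 0 - a 0) * huv
      have r1 : (m' : ℤ) * t 1 = y 1 - a 1 + B * (m' * s 1 - v * (y 1 - a 1)) := by
        rw [t1]; linear_combination (y 1 - a 1) * huv
      have r2 : (m' : ℤ) * t 2 = y 2 - a 2 + B * (m' * s 2 - v * (y 2 - a 2)) := by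
        rw [t2]; linear_combination (y 2 - a 2) * huv
      have r3 : (m' : ℤ) * t 3 = y 3 - a 3 + B * (m' * s 3 - v * (y 3 - a 3)) := by
        rw [t3]; linear_combination (y 3 - a 3) * huv
      set b0 := m' * s 0 - v * (y 0 - a 0)
      set b1 := m' * s 1 - v * (y 1 - a 1)
      set b2 := m' * s 2 - v * (y 2 - a 2)
      set b3 := m' * s 3 - v * (y 3 - a 3)
      have expand : (m' : ℤ) * (2 * (a 0 * t 0 + a 1 * t 1 + a 2 * t 2 + a 3 * t 3) +
          m' * (t 0 ^ 2 + t 1 ^ 2 + t 2 ^ 2 + t 3 ^ 2) - m' * D) =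
          (2 * (a 0 * (m' * t 0) + a 1 * (m' * t 1) + a 2 * (m' * t 2) + a 3 * (m' * t 3)) +
          ((m' * t 0) ^ 2 + (m' * t 1) ^ 2 + (m' * t 2) ^ 2 + (m' * t 3) ^ 2) - m' ^ 2 * D) := by
        ring
      rw [expand, r0, r1, r2, r3]
      refine ⟨y1 + 2 * (y 0 * b0 + y 1 * b1 + y 2 * b2 + y 3 * b3) +
        B * (b0 ^ 2 + b1 ^ 2 + b2 ^ 2 + b3 ^ 2), ?_⟩
      linear_combination hy1
    have hBm : IsCoprime (B : ℤ) (m' : ℤ) := ⟨v, u, by linear_combination huv⟩
    exact hBm.dvd_of_dvd_mul_left hdvd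

/-- **Local solvability.** For odd `m`, `M` and `q(c) ≡ q(a) + m² D` can be solved modulo `m² M`
with `c ≡ a` modulo `m`. -/
theorem exists_adjust {m M : ℕ} (hm : Odd m) (hM : Odd M) (a : Fin 4 → ℤ) (D : ℤ) :
    ∃ t : Fin 4 → ℤ, ((m : ℤ) ^ 2 * M) ∣ q4 (fun i => a i + m * t i) - q4 a - m ^ 2 * D := by
  -- content of `(a, m)`
  induction hk : m using Nat.strong_induction_on generalizing m a D with
  | _ k ih =>
    subst hk
    by_cases h : ∀ p : ℤ, Prime p → p ∣ (m : ℤ) → ¬ (∀ i, p ∣ a i)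
    · obtain ⟨t, s, hs⟩ := exists_adjust_prim hm hM a h D
      refine ⟨t, s, ?_⟩
      simp only [dot4, q4] at *
      linear_combination (m : ℤ) * hs
    · push Not at h
      obtain ⟨p, hp, hpm, hpa⟩ := h
      -- replace `p` by its absolute value
      set P : ℕ := p.natAbs with hP
      have hPm : P ∣ m := by
        have := Int.natAbs_dvd_natAbs.2 hpm
        simpa using this
      have hPa : ∀ i, (P : ℤ) ∣ a i := fun i => by
        rw [hP, Int.natCast_natAbs]
        exact (abs_dvd _ _).2 (hpa i)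
      have hP1 : 1 < P := by
        have := Int.prime_iff_natAbs_prime.1 hp
        exact this.one_lt
      obtain ⟨m1, hm1⟩ := hPm
      choose a1 ha1 using hPa
      have hm1odd : Odd m1 := by
        rw [hm1] at hm
        exact (Nat.odd_mul.1 hm).2
      have hlt : m1 < m := by
        rw [hm1]
        have := hm1odd.pos
        nlinarith
      obtain ⟨t, s, hs⟩ := ih m1 hlt hm1odd a1 D rfl
      refine ⟨t, s, ?_⟩
      have e0 := ha1 0
      have e1 := ha1 1
      have e2 := ha1 2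
      have e3 := ha1 3
      have em : (m : ℤ) = P * m1 := by rw [hm1]; push_cast; ring
      simp only [q4] at *
      rw [e0, e1, e2, e3, em]
      linear_combination (P : ℤ) ^ 2 * hs

end Pool.Agent.H723R3.Squares
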